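import Pool.Agent.Lib.helper20.LieHomog

namespace Pool.Agent.Results.MP_8011ed_lc.Regular

open Pool.Agent.Lib.helper20.AlgHomog

universe u

theorem result (K : Type u) [Field K] (r n : ℕ) (hn : 1 ≤ n)
    (B : Type u) [LieRing B] [LieAlgebra K B]
    (hB : LieModule.lowerCentralSeries K B B n = ⊥)
    (h : Isotypic K (FreeNilLie K r n) B (fun a b => ⁅a, b⁆) (fun a b => ⁅a, b⁆)) :
    Nonempty (FreeNilLie K r n ≃ₗ⁅K⁆ B) := by
  obtain ⟨e, he⟩ := iso_of_isotypic (y := gen K r n) (nil_homog hn)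
    (exists_term (μ := brk K _) nil_gen) (fun y' => nil_ext hB y') h
  exact ⟨{ e with map_lie' := fun {x z} => he x z }⟩

end Pool.Agent.Results.MP_8011ed_lc.Regular
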